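import Pool.Agent.H740R3.BQStmts

/-! T6 of H740-BQ: a frame adapted to a state. -/

set_option autoImplicit false
set_option maxHeartbeats 4000000
set_option synthInstance.maxHeartbeats 400000

open Filter Topology

namespace Pool.Agent.H253MB.BQ

open Pool.Agent.H740R3.BQ

universe u

section
variable {X : Type u} [NormedAddCommGroup X] [NormedSpace ℂ X]

theorem PN_apply (e : ℕ → X) (g : ℕ → StrongDual ℂ X) (N : ℕ) (f : X) :
    PN e g N f = ∑ i ∈ Finset.range N, g i f • e i := by
  simp [PN, ContinuousLinearMap.sum_apply]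

theorem PN_e {e : ℕ → X} {g : ℕ → StrongDual ℂ X} (h : ∀ i j, g i (e j) = if i = j then 1 else 0)
    {N i : ℕ} (hi : i < N) : PN e g N (e i) = e i := by
  rw [PN_apply]
  rw [Finset.sum_eq_single i]
  · rw [h]; simp
  · intro j _ hj
    rw [h]; simp [hj]
  · intro hn
    exact absurd (Finset.mem_range.mpr hi) hn

theorem g_PN {e : ℕ → X} {g : ℕ → StrongDual ℂ X} (h : ∀ i j, g i (e j) = if i = j then 1 else 0)
    {N k : ℕ} (hk : k < N) (f : X) : g k (PN e g N f) = g k f := by
  rw [PN_apply, map_sum]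
  rw [Finset.sum_eq_single k]
  · rw [map_smul, h]; simp
  · intro j _ hj
    rw [map_smul, h]; simp [Ne.symm hj]
  · intro hn
    exact absurd (Finset.mem_range.mpr hk) hn

theorem g_PN' {e : ℕ → X} {g : ℕ → StrongDual ℂ X} (h : ∀ i j, g i (e j) = if i = j then 1 else 0)
    {N k : ℕ} (hk : N ≤ k) (f : X) : g k (PN e g N f) = 0 := by
  rw [PN_apply, map_sum]
  apply Finset.sum_eq_zero
  intro j hj
  rw [Finset.mem_range] at hj
  rw [map_smul, h, if_neg (by omega)]
  simp

end

theorem t6 : T6.{u} := by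
  intro X _ _ e g hbio N A b hS
  have hN := hS.pos
  -- coordinates of the `e i`
  have hcyc : ∀ i : Fin N, ∃ p : ℕ → ℂ, e i = ∑ k ∈ Finset.range N, p k • (A ^ k) (e 0) := by
    intro i
    obtain ⟨p, _, hp⟩ := hS.cyc (e i) (PN_e hbio i.2)
    exact ⟨p, hp⟩
  choose p hp using hcyc
  set Q : ℕ → ℕ → ℂ := fun k i => if h : i < N then p ⟨i, h⟩ k else 0 with hQ
  have hQe : ∀ i, i < N → e i = ∑ k ∈ Finset.range N, Q k i • (A ^ k) (e 0) := by
    intro i hi
    have h1 := hp ⟨i, hi⟩
    simp only [hQ, hi, dif_pos]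
    exact h1
  -- the matrices
  let M : Matrix (Fin N) (Fin N) ℂ := fun j k => g j ((A ^ (k : ℕ)) (e 0))
  let Qm : Matrix (Fin N) (Fin N) ℂ := fun k i => Q k i
  have hMQ : M * Qm = 1 := by
    ext j i
    rw [Matrix.mul_apply, Matrix.one_apply]
    have h1 : g j (e i) = ∑ k ∈ Finset.range N, Q k i * g j ((A ^ k) (e 0)) := by
      conv_lhs => rw [hQe i i.2]
      rw [map_sum]
      refine Finset.sum_congr rfl (fun k _ => ?_)
      rw [map_smul, smul_eq_mul]
    rw [hbio, Finset.sum_range] at h1
    have h2 : (if (j : ℕ) = (i : ℕ) then (1 : ℂ) else 0) = if j = i then 1 else 0 := by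
      simp [Fin.ext_iff]
    rw [← h2, h1]
    refine Finset.sum_congr rfl (fun k _ => ?_)
    show M j k * Qm k i = Q k i * g j ((A ^ (k : ℕ)) (e 0))
    simp only [M, Qm]
    ring
  have hQM : Qm * M = 1 := mul_eq_one_comm.mp hMQ
  have hQM' : ∀ k l : ℕ, k < N → l < N →
      ∑ i ∈ Finset.range N, Q k i * g i ((A ^ l) (e 0)) = if k = l then 1 else 0 := by
    intro k l hk hl
    have h1 := congrFun (congrFun hQM ⟨k, hk⟩) ⟨l, hl⟩
    rw [Matrix.mul_apply, Matrix.one_apply] at h1
    rw [Finset.sum_range]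
    simp only [M, Qm, Fin.mk.injEq] at h1
    exact h1
  set E : ℕ → X := fun k => if k < N then (A ^ k) (e 0) else e k with hE
  set F : ℕ → StrongDual ℂ X := fun k => if k < N then ∑ i ∈ Finset.range N, Q k i • g i else g k with hF
  have hElt : ∀ k, k < N → E k = (A ^ k) (e 0) := fun k hk => by simp only [hE, if_pos hk]
  have hEge : ∀ k, N ≤ k → E k = e k := fun k hk => by simp only [hE, if_neg (not_lt.mpr hk)]
  have hFlt : ∀ k, k < N → ∀ f, F k f = ∑ i ∈ Finset.range N, Q k i * g i f := by
    intro k hk f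
    simp only [hF, if_pos hk, ContinuousLinearMap.sum_apply]
    rfl
  have hFge : ∀ k, N ≤ k → ∀ f, F k f = g k f := fun k hk f => by
    simp only [hF, if_neg (not_lt.mpr hk)]
  have hPE : ∀ l, l < N → PN e g N ((A ^ l) (e 0)) = (A ^ l) (e 0) := by
    intro l hl
    cases l with
    | zero => simpa using PN_e hbio hN
    | succ l =>
      rw [pow_succ']
      exact hS.left _
  have hbioEF : ∀ i j, F i (E j) = if i = j then 1 else 0 := by
    intro k l
    rcases lt_or_ge k N with hk | hk
    · rw [hFlt k hk]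
      rcases lt_or_ge l N with hl | hl
      · rw [hElt l hl]
        exact hQM' k l hk hl
      · rw [hEge l hl, if_neg (by omega)]
        apply Finset.sum_eq_zero
        intro i hi
        rw [Finset.mem_range] at hi
        rw [hbio, if_neg (by omega), mul_zero]
    · rw [hFge k hk]
      rcases lt_or_ge l N with hl | hl
      · rw [hElt l hl, ← hPE l hl, g_PN' hbio hk, if_neg (by omega)]
      · rw [hEge l hl]
        exact hbio k l
  have hsumN : ∀ f, ∑ k ∈ Finset.range N, F k f • E k = PN e g N f := by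
    intro f
    have h1 : ∀ k ∈ Finset.range N, F k f • E k =
        ∑ i ∈ Finset.range N, g i f • (Q k i • (A ^ k) (e 0)) := by
      intro k hk
      rw [Finset.mem_range] at hk
      rw [hFlt k hk, hElt k hk, Finset.sum_smul]
      refine Finset.sum_congr rfl (fun i _ => ?_)
      rw [mul_comm, mul_smul]
    rw [Finset.sum_congr rfl h1, Finset.sum_comm, PN_apply]
    refine Finset.sum_congr rfl (fun i hi => ?_)
    rw [Finset.mem_range] at hi
    rw [← Finset.smul_sum, ← hQe i hi]
  have hsum : ∀ M, N ≤ M → ∀ f, ∑ k ∈ Finset.range M, F k f • E k = PN e g M f := by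
    intro M hM f
    induction M, hM using Nat.le_induction with
    | base => exact hsumN f
    | succ M hM ih =>
      rw [Finset.sum_range_succ, ih, PN_apply, PN_apply, Finset.sum_range_succ, hFge M hM, hEge M hM]
  have hFP : ∀ M, N ≤ M → ∀ k, k < M → ∀ f, F k (PN e g M f) = F k f := by
    intro M hM k hk f
    rcases lt_or_ge k N with hkN | hkN
    · rw [hFlt k hkN, hFlt k hkN]
      refine Finset.sum_congr rfl (fun i hi => ?_)
      rw [Finset.mem_range] at hi
      rw [g_PN hbio (by omega)]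
    · rw [hFge k hkN, hFge k hkN]
      exact g_PN hbio hk f
  have hnil : ∀ k, N ≤ k → ∀ f, (A ^ k) f = 0 := by
    intro k hk f
    obtain ⟨j, rfl⟩ := Nat.exists_eq_add_of_le hk
    rw [pow_add, hS.nil, zero_mul]
    rfl
  have hb2 : ∀ u v, b u v = b (PN e g N u) (PN e g N v) := by
    intro u v
    rw [hS.bP, hS.bsymm u (PN e g N v), hS.bP, hS.bsymm]
  have hbA : ∀ i j, b ((A ^ i) (e 0)) ((A ^ j) (e 0)) = b ((A ^ (i + j)) (e 0)) (e 0) := by
    intro i j
    induction j generalizing i with
    | zero => simp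
    | succ j ih =>
      have h1 : (A ^ (j + 1)) (e 0) = A ((A ^ j) (e 0)) := by rw [pow_succ']; rfl
      have h2 : A ((A ^ i) (e 0)) = (A ^ (i + 1)) (e 0) := by rw [pow_succ']; rfl
      rw [h1, ← hS.bA, h2, ih (i + 1)]
      congr 2
      rw [show i + 1 + j = i + (j + 1) by omega]
  refine ⟨E, F, hElt, hEge, hbioEF, hsum, hFP, ?_, ?_⟩
  · ext f
    rw [ContinuousLinearMap.sum_apply]
    have h1 : A f = A (∑ k ∈ Finset.range N, F k f • E k) := by rw [hsumN, hS.right]
    rw [h1, map_sum]
    refine Finset.sum_congr rfl (fun j hj => ?_)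
    rw [Finset.mem_range] at hj
    rw [map_smul, hElt j hj]
    have h2 : A ((A ^ j) (e 0)) = (A ^ (j + 1)) (e 0) := by rw [pow_succ']; rfl
    rw [h2]
    split_ifs with h
    · rw [ContinuousLinearMap.smulRight_apply, hElt (j + 1) h]
    · rw [hnil (j + 1) (by omega), smul_zero]
      rfl
  · intro u v
    rw [hb2 u v, ← hsumN u, ← hsumN v]
    simp only [map_sum, map_smul, ContinuousLinearMap.sum_apply, ContinuousLinearMap.smul_apply,
      smul_eq_mul]
    have h3 : ∀ i ∈ Finset.range N, ∀ j ∈ Finset.range N, b (E i) (E j) =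
        if i + j < N then b ((A ^ (i + j)) (e 0)) (e 0) else 0 := by
      intro i hi j hj
      rw [Finset.mem_range] at hi hj
      rw [hElt i hi, hElt j hj, hbA]
      split_ifs with h
      · rfl
      · rw [hnil (i + j) (by omega)]
        simp
    simp only [Finset.mul_sum]
    rw [Finset.sum_comm]
    refine Finset.sum_congr rfl (fun i hi => Finset.sum_congr rfl (fun j hj => ?_))
    rw [h3 i hi j hj]
    ring

end Pool.Agent.H253MB.BQ
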